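import Pool.Agent.K4H40.NS.Spec

/-!
Pieces DEC and REG.
-/

set_option autoImplicit false

namespace Pool.Agent.K4H40.NS

open MvPolynomial Module

theorem comp_mul25 {n : ℕ} {K : Type} [Field K] {t : R n K} (ht : t ∈ hs n K 1) (c : R n K)
    (d : ℕ) : homogeneousComponent (d + 1) (t * c) = t * homogeneousComponent d c := by
  classical
  conv_lhs => rw [← sum_homogeneousComponent c]
  rw [Finset.mul_sum, map_sum]
  have h : ∀ i, homogeneousComponent (d + 1) (t * homogeneousComponent i c) =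
      if d = i then t * homogeneousComponent i c else 0 := by
    intro i
    have h1 : t * homogeneousComponent i c ∈ homogeneousSubmodule (Fin n) K (i + 1) := by
      have h2 := (mem_homogeneousSubmodule 1 t).1 ht
      have h3 := homogeneousComponent_isHomogeneous i c
      have h4 := h2.mul h3
      rw [add_comm 1 i] at h4
      exact (mem_homogeneousSubmodule _ _).2 h4
    rw [homogeneousComponent_of_mem h1]
    by_cases hd : d = i
    · rw [if_pos hd, if_pos (by omega)]
    · rw [if_neg hd, if_neg (by omega)]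
  simp only [h]
  rw [Finset.sum_ite_eq]
  split_ifs with h1
  · rfl
  · rw [homogeneousComponent_eq_zero, mul_zero]
    rw [Finset.mem_range] at h1
    omega

theorem dec : StDEC := by
  intro n k K _ I s hI d
  apply le_antisymm
  · rintro p ⟨hp1, hp2⟩
    have hp1' : p ∈ I ⊔ Ideal.span (Set.range s.θ) := hp1
    obtain ⟨a, ha, b, hb, rfl⟩ := Submodule.mem_sup.1 hp1'
    obtain ⟨c, rfl⟩ := (Ideal.mem_span_range_iff_exists_fun).1 hb
    have h1 : a + ∑ i, c i * s.θ i = homogeneousComponent (d + 1) a +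
        ∑ i, s.θ i * homogeneousComponent d (c i) := by
      have h2 := homogeneousComponent_of_mem hp2 (m := d + 1)
      rw [if_pos rfl] at h2
      rw [← h2, map_add, map_sum]
      congr 1
      refine Finset.sum_congr rfl fun i _ => ?_
      rw [mul_comm, comp_mul25 (s.θ_lin i)]
    rw [h1]
    refine Submodule.add_mem_sup ⟨hI a ha _, homogeneousComponent_mem _ _⟩ ?_
    refine Submodule.sum_mem _ fun i _ => ?_
    exact Submodule.subset_span ⟨i, _, homogeneousComponent_mem _ _, rfl⟩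
  · refine sup_le ?_ ?_
    · rintro p ⟨hp1, hp2⟩
      exact ⟨(le_sup_left : I ≤ I ⊔ Ideal.span (Set.range s.θ)) hp1, hp2⟩
    · refine Submodule.span_le.2 ?_
      rintro _ ⟨i, f, hf, rfl⟩
      refine ⟨?_, ?_⟩
      · have h1 : s.θ i * f ∈ I ⊔ Ideal.span (Set.range s.θ) :=
          (le_sup_right : Ideal.span (Set.range s.θ) ≤ _)
            (Ideal.mul_mem_right _ _ (Ideal.subset_span ⟨i, rfl⟩))
        exact h1
      · have h2 := (mem_homogeneousSubmodule 1 _).1 (s.θ_lin i)
        have h3 := (mem_homogeneousSubmodule d f).1 hf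
        have h4 := h2.mul h3
        rw [add_comm 1 d] at h4
        exact (mem_homogeneousSubmodule _ _).2 h4

theorem reg_aux25 {n k : ℕ} {K : Type} [Field K] {I : Ideal (R n K)} (s : Sys n k K I) :
    ∀ m : ℕ, m ≤ 2 * k + 1 → ∀ f ∈ I,
      f ∈ Ideal.span (s.θ '' {j : Fin (2 * k + 1) | (j : ℕ) < m}) →
      ∃ h : Fin (2 * k + 1) → R n K, (∀ i, h i ∈ I) ∧ f = ∑ i, s.θ i * h i := by
  classical
  intro m
  induction m with
  | zero =>
    intro _ f _ hf
    have h1 : {j : Fin (2 * k + 1) | (j : ℕ) < 0} = ∅ := by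
      ext j
      simp
    rw [h1, Set.image_empty, Ideal.span_empty] at hf
    refine ⟨fun _ => 0, fun _ => I.zero_mem, ?_⟩
    rw [Ideal.mem_bot.1 hf]
    simp
  | succ m ih =>
    intro hm f hfI hf
    have h1 : {j : Fin (2 * k + 1) | (j : ℕ) < m + 1} =
        insert (⟨m, by omega⟩ : Fin (2 * k + 1)) {j : Fin (2 * k + 1) | (j : ℕ) < m} := by
      ext j
      simp only [Set.mem_ofPred_eq, Set.mem_insert_iff, Fin.ext_iff]
      omega
    rw [h1, Set.image_insert_eq] at hf
    obtain ⟨a, z, hz, rfl⟩ := Ideal.mem_span_insert.1 hf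
    have h2 : {j : Fin (2 * k + 1) | j < (⟨m, by omega⟩ : Fin (2 * k + 1))} =
        {j : Fin (2 * k + 1) | (j : ℕ) < m} := by
      ext j
      simp [Fin.lt_def]
    have h3 : s.θ ⟨m, by omega⟩ * a ∈ I ⊔ Ideal.span
        (s.θ '' {j | j < (⟨m, by omega⟩ : Fin (2 * k + 1))}) := by
      rw [h2]
      have h4 : s.θ ⟨m, by omega⟩ * a = (a * s.θ ⟨m, by omega⟩ + z) + (-z) := by ring
      rw [h4]
      exact Submodule.add_mem_sup hfI (Ideal.neg_mem_iff _ |>.2 hz)
    have h5 := s.regular _ _ h3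
    rw [h2] at h5
    obtain ⟨b, hb, c, hc, hbc⟩ := Submodule.mem_sup.1 h5
    have h6 : a * s.θ ⟨m, by omega⟩ + z - s.θ ⟨m, by omega⟩ * b ∈ I :=
      I.sub_mem hfI (Ideal.mul_mem_left _ _ hb)
    have h7 : a * s.θ ⟨m, by omega⟩ + z - s.θ ⟨m, by omega⟩ * b ∈
        Ideal.span (s.θ '' {j : Fin (2 * k + 1) | (j : ℕ) < m}) := by
      have h8 : a * s.θ ⟨m, by omega⟩ + z - s.θ ⟨m, by omega⟩ * b =
          s.θ ⟨m, by omega⟩ * c + z := by
        rw [← hbc]
        ring
      rw [h8]
      exact Ideal.add_mem _ (Ideal.mul_mem_left _ _ hc) hz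
    obtain ⟨h, hh, he⟩ := ih (by omega) _ h6 h7
    refine ⟨fun i => h i + (if i = ⟨m, by omega⟩ then b else 0), fun i => ?_, ?_⟩
    · refine I.add_mem (hh i) ?_
      split_ifs
      · exact hb
      · exact I.zero_mem
    · simp only [mul_add, Finset.sum_add_distrib, mul_ite, mul_zero, Finset.sum_ite_eq',
        Finset.mem_univ, if_true]
      rw [← he]
      ring

theorem reg : StREG := by
  intro n k K _ I s hI d
  rintro f ⟨⟨hf1, hf2⟩, hf3⟩
  have h1 : f ∈ Ideal.span (s.θ '' {j : Fin (2 * k + 1) | (j : ℕ) < 2 * k + 1}) := by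
    have h2 : s.θ '' {j : Fin (2 * k + 1) | (j : ℕ) < 2 * k + 1} = Set.range s.θ := by
      rw [← Set.image_univ]
      congr 1
      ext j
      have := j.2
      simp only [Set.mem_ofPred_eq, Set.mem_univ, iff_true]
      exact this
    rw [h2]
    have h3 : s.Th d ≤ (Ideal.span (Set.range s.θ)).restrictScalars K := by
      refine Submodule.span_le.2 ?_
      rintro _ ⟨i, g, -, rfl⟩
      exact Ideal.mul_mem_right _ _ (Ideal.subset_span ⟨i, rfl⟩)
    exact h3 hf3
  obtain ⟨h, hh, he⟩ := reg_aux25 s _ le_rfl f hf1 h1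
  have h2 := homogeneousComponent_of_mem hf2 (m := d + 1)
  rw [if_pos rfl] at h2
  have h3 : f = ∑ i, s.θ i * homogeneousComponent d (h i) := by
    rw [← h2]
    conv_lhs => rw [he]
    rw [map_sum]
    refine Finset.sum_congr rfl fun i _ => ?_
    rw [comp_mul25 (s.θ_lin i)]
  rw [h3]
  refine Submodule.sum_mem _ fun i _ => Submodule.subset_span ?_
  exact ⟨s.θ i, s.θ_lin i, homogeneousComponent d (h i),
    ⟨hI _ (hh i) _, homogeneousComponent_mem _ _⟩, rfl⟩

end Pool.Agent.K4H40.NS
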